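import Pool.Agent.helper97.IRO.Spec

/-!
# Row G5a of `Pool.Agent.helper97.IRO.Spec`
-/

set_option autoImplicit false

open MeasureTheory Pool.Agent.LOF

namespace Pool.Agent.IRO

/-- the copy of `X0` on `[k / 2 ^ m, (k + 1) / 2 ^ m]` -/
noncomputable def G5a_cp (m k : ℕ) : ℝ ≃o ℝ :=
  (Aff m ((k : ℝ) / 2 ^ m))⁻¹ * (X0 * Aff m ((k : ℝ) / 2 ^ m))

theorem G5a_cp_apply (m k : ℕ) (t : ℝ) :
    G5a_cp m k t = X0 (2 ^ m * (t - (k : ℝ) / 2 ^ m)) / 2 ^ m + (k : ℝ) / 2 ^ m := rfl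

theorem G5a_cp_mem (m k : ℕ) (hk : k < 2 ^ m) : G5a_cp m k ∈ F := by
  have hm : (0 : ℝ) < 2 ^ m := by positivity
  have hk1 : (k : ℝ) + 1 ≤ 2 ^ m := by exact_mod_cast hk
  have ha0 : (0 : ℝ) ≤ (k : ℝ) / 2 ^ m := by positivity
  refine ⟨?_, ?_⟩
  · intro x hx
    rw [Set.mem_Ioo, not_and_or, not_lt, not_lt] at hx
    rcases hx with hx | hx
    · rw [G5a_cp_apply, X0_apply, if_pos]
      · field_simp
        ring
      · have h1 : x - (k : ℝ) / 2 ^ m ≤ 0 := by linarith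
        exact mul_nonpos_of_nonneg_of_nonpos hm.le h1
    · have i1 : 1 ≤ 2 ^ m * (x - (k : ℝ) / 2 ^ m) := by
        have h2 : 2 ^ m * (x - (k : ℝ) / 2 ^ m) = 2 ^ m * x - k := by
          field_simp
        rw [h2]
        have h3 : (2 : ℝ) ^ m * 1 ≤ 2 ^ m * x := mul_le_mul_of_nonneg_left hx hm.le
        linarith
      have i2 : X0 (2 ^ m * (x - (k : ℝ) / 2 ^ m)) = 2 ^ m * (x - (k : ℝ) / 2 ^ m) := by
        rw [X0_apply]
        split_ifs <;> linarith
      rw [G5a_cp_apply, i2]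
      field_simp
      ring
  · refine ⟨_, ?_, ((Aff_pl m ((k : ℝ) / 2 ^ m)).inv).mul (X0_pl.mul (Aff_pl m ((k : ℝ) / 2 ^ m)))⟩
    have hda : IsDyadic ((k : ℝ) / 2 ^ m) := ⟨k, m, by push_cast; rfl⟩
    have hd1 : ∀ t, IsDyadic t → IsDyadic (((Aff m ((k : ℝ) / 2 ^ m))⁻¹ : ℝ ≃o ℝ) t) := by
      intro t ht
      rw [Aff_inv_apply]
      have : t / 2 ^ m = 2 ^ (-(m : ℤ)) * t := by
        rw [zpow_neg, zpow_natCast]; field_simp
      rw [this]
      exact (ht.pow_mul _).add hda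
    intro b hb
    rw [Finset.mem_union] at hb
    rcases hb with hb | hb
    · rw [Finset.mem_union] at hb
      rcases hb with hb | hb
      · simp at hb
      · rw [Finset.mem_image] at hb
        obtain ⟨c, hc, rfl⟩ := hb
        refine hd1 _ ?_
        simp only [Finset.mem_insert, Finset.mem_singleton] at hc
        rcases hc with rfl | rfl | rfl | rfl
        · simpa using IsDyadic.int 0
        · exact ⟨1, 1, by norm_num⟩
        · exact ⟨3, 2, by norm_num⟩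
        · simpa using IsDyadic.int 1
    · simp at hb

theorem G5a_odd (m : ℕ) : ∀ k : ℕ, k < 2 ^ m → ∃ g : F, g.1 (1 / 2) = (2 * (k : ℝ) + 1) / 2 ^ (m + 1) := by
  induction m with
  | zero =>
    intro k hk
    have hk0 : k = 0 := by simpa using hk
    subst hk0
    refine ⟨1, ?_⟩
    show (1 / 2 : ℝ) = _
    norm_num
  | succ m ih =>
    intro k hk
    have hm : (0 : ℝ) < 2 ^ m := by positivity
    have hk2 : k / 2 < 2 ^ m := by
      rw [pow_succ] at hk
      omega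
    obtain ⟨g, hg⟩ := ih (k / 2) hk2
    rcases Nat.mod_two_eq_zero_or_one k with h | h
    · have hkk : (k : ℝ) = 2 * ((k / 2 : ℕ) : ℝ) := by
        have : k = 2 * (k / 2) := by omega
        exact_mod_cast this
      refine ⟨⟨G5a_cp m (k / 2), G5a_cp_mem m _ hk2⟩ * g, ?_⟩
      show G5a_cp m (k / 2) (g.1 (1 / 2)) = _
      rw [hg, G5a_cp_apply]
      have h1 : 2 ^ m * ((2 * ((k / 2 : ℕ) : ℝ) + 1) / 2 ^ (m + 1) - ((k / 2 : ℕ) : ℝ) / 2 ^ m) = 1 / 2 := by
        rw [pow_succ]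
        field_simp
        ring
      rw [h1, X0_apply]
      norm_num
      rw [hkk, pow_succ, pow_succ]
      field_simp
      ring
    · have hkk : (k : ℝ) = 2 * ((k / 2 : ℕ) : ℝ) + 1 := by
        have : k = 2 * (k / 2) + 1 := by omega
        exact_mod_cast this
      refine ⟨⟨G5a_cp m (k / 2), G5a_cp_mem m _ hk2⟩⁻¹ * g, ?_⟩
      show (G5a_cp m (k / 2)).symm (g.1 (1 / 2)) = _
      rw [OrderIso.symm_apply_eq, hg, G5a_cp_apply]
      have h1 : 2 ^ m * ((2 * (k : ℝ) + 1) / 2 ^ (m + 1 + 1) - ((k / 2 : ℕ) : ℝ) / 2 ^ m) = 3 / 4 := by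
        rw [hkk, pow_succ, pow_succ]
        field_simp
        ring
      rw [h1, X0_apply]
      norm_num
      rw [pow_succ]
      field_simp
      ring

theorem G5a_all (n : ℕ) : ∀ a : ℕ, 0 < a → a < 2 ^ n → ∃ g : F, g.1 (1 / 2) = (a : ℝ) / 2 ^ n := by
  induction n with
  | zero =>
    intro a h1 h2
    rw [pow_zero] at h2
    omega
  | succ n ih =>
    intro a h1 h2
    rw [pow_succ] at h2
    rcases Nat.mod_two_eq_zero_or_one a with h | h
    · obtain ⟨g, hg⟩ := ih (a / 2) (by omega) (by omega)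
      refine ⟨g, ?_⟩
      rw [hg]
      have haa : (a : ℝ) = 2 * ((a / 2 : ℕ) : ℝ) := by
        have : a = 2 * (a / 2) := by omega
        exact_mod_cast this
      rw [haa, pow_succ]
      field_simp
    · obtain ⟨g, hg⟩ := G5a_odd n (a / 2) (by omega)
      refine ⟨g, ?_⟩
      rw [hg]
      have haa : (a : ℝ) = 2 * ((a / 2 : ℕ) : ℝ) + 1 := by
        have : a = 2 * (a / 2) + 1 := by omega
        exact_mod_cast this
      rw [← haa]

theorem G5a : G5a_stmt := by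
  intro y hy h0 h1
  obtain ⟨a, n, rfl⟩ := hy
  have hn : (0 : ℝ) < 2 ^ n := by positivity
  have ha0 : (0 : ℝ) < (a : ℝ) := by
    have h2 := mul_pos h0 hn
    rwa [div_mul_cancel₀ _ hn.ne'] at h2
  have ha1 : (a : ℝ) < 2 ^ n := by
    rwa [div_lt_one hn] at h1
  have hb0 : 0 < a := by exact_mod_cast ha0
  obtain ⟨b, rfl⟩ := Int.eq_ofNat_of_zero_le hb0.le
  have hb1 : 0 < b := by exact_mod_cast hb0
  have hb2 : b < 2 ^ n := by
    have : ((b : ℤ) : ℝ) = (b : ℝ) := by push_cast; rfl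
    rw [this] at ha1
    exact_mod_cast ha1
  obtain ⟨g, hg⟩ := G5a_all n b hb1 hb2
  refine ⟨g, ?_⟩
  rw [hg]
  push_cast
  rfl

end Pool.Agent.IRO
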