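import Pool.Agent.helper97.IRO.Spec

/-!
# Row T2 of `Pool.Agent.helper97.IRO.Spec`
-/

set_option autoImplicit false

open MeasureTheory Pool.Agent.LOF

namespace Pool.Agent.IRO

theorem T2 (hCT8 : CT8_stmt) (hG9 : G9_stmt) : T2_stmt := by
  intro P hP hC a b g hab hg h1 h2
  exact hCT8 F P hP hC (FI a b) g (hG9 a b g hab hg h1 h2)

end Pool.Agent.IRO
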